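import Pool.Agent.U115.GE.Defs
import Pool.Agent.Y587.SG.LG

/-!
# GE-GOOD: the coverings have local points at the primes of good reduction

For an odd prime `p` which does not divide `b (a² - 4 b) d` the quartic
`N² = d M⁴ + a M² e² + (b / d) e⁴` has a nontrivial point over `ℚ_p`.
-/

set_option autoImplicit false

namespace Pool.Agent.U739.GE

open Pool.Agent.TH841.LS.LOCA0
open Pool.Agent.Y698.SG.Cv (LocI)
open Pool.Agent.U115.GE

/-- a point of the covering from a point of the curve -/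
theorem qs_of_locI (K : Type) [Field K] [CharZero K] (a b d : ℤ) (hd : d ≠ 0)
    (h : LocI K (-2 * a) (a ^ 2 - 4 * b) d) : Qs K a b d := by
  obtain ⟨X, Y, r, hX, hY, hr⟩ := h
  have hdK : (d : K) ≠ 0 := by exact_mod_cast hd
  have hr0 : r ≠ 0 := by
    rintro rfl
    exact hX (by rw [hr]; ring)
  refine ⟨Y / (4 * d * r), r / 2, 1, Or.inr one_ne_zero, ?_⟩
  have h4 : (4 : K) ≠ 0 := by norm_num
  have h2 : (2 : K) ≠ 0 := by norm_num
  have e1 : (Y / (4 * (d : K) * r)) ^ 2 = Y ^ 2 / (16 * (d : K) ^ 2 * r ^ 2) := by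
    field_simp
    ring
  rw [e1, hY, hr]
  push_cast
  field_simp
  ring

theorem t_GOOD : S_GOOD := by
  intro a b d p hp h2 hb hc hd
  have hbz : (b : ZMod p) ≠ 0 := fun h0 => hb ((ZMod.intCast_zmod_eq_zero_iff_dvd b p).1 h0)
  have hcz : ((a ^ 2 - 4 * b : ℤ) : ZMod p) ≠ 0 :=
    fun h0 => hc ((ZMod.intCast_zmod_eq_zero_iff_dvd _ p).1 h0)
  have hdz : (d : ZMod p) ≠ 0 := fun h0 => hd ((ZMod.intCast_zmod_eq_zero_iff_dvd d p).1 h0)
  have hb0 : b ≠ 0 := by
    rintro rfl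
    exact hb (dvd_zero _)
  have hd0 : d ≠ 0 := by
    rintro rfl
    exact hd (dvd_zero _)
  have h2z : (2 : ZMod p) ≠ 0 := Pool.Agent.Y587.SG.two_ne h2
  have h16 : (16 : ZMod p) = 4 ^ 2 := by norm_num
  have h4z : (4 : ZMod p) ≠ 0 := by
    have : (4 : ZMod p) = 2 * 2 := by norm_num
    rw [this]
    exact mul_ne_zero h2z h2z
  have hab : (-2 * a) ^ 2 - 4 * (a ^ 2 - 4 * b) ≠ 0 := by
    have : (-2 * a) ^ 2 - 4 * (a ^ 2 - 4 * b) = 16 * b := by ring
    rw [this]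
    exact mul_ne_zero (by norm_num) hb0
  apply qs_of_locI ℚ_[p] a b d hd0
  have sq : ∀ u : ℤ_[p], quadraticChar (ZMod p) (PadicInt.toZMod u) = 1 →
      IsSquare (u : ℚ_[p]) := by
    intro u hu
    obtain ⟨v, hv⟩ := sq_of_char h2 hu
    exact ⟨v, by rw [hv]; push_cast; ring⟩
  have e16 : (((-2 * a : ℤ) : ZMod p)) ^ 2 - 4 * ((a ^ 2 - 4 * b : ℤ) : ZMod p) =
      4 ^ 2 * (b : ZMod p) := by
    push_cast
    ring
  have hchar : quadraticChar (ZMod p) ((((-2 * a : ℤ) : ZMod p)) ^ 2 -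
      4 * ((a ^ 2 - 4 * b : ℤ) : ZMod p)) = quadraticChar (ZMod p) (b : ZMod p) := by
    rw [e16, map_mul, quadraticChar_sq_one' h4z, one_mul]
  rcases quadraticChar_dichotomy hdz with hd1 | hd1
  · apply Pool.Agent.Y587.SG.lq _ _ d hab hd0 p
    left
    have := sq (d : ℤ_[p]) (by rw [map_intCast]; exact hd1)
    push_cast at this
    exact this
  · rcases quadraticChar_dichotomy hbz with hc1 | hc1
    · exact Pool.Agent.Y587.SG.aux p _ _ d h2 hcz (by rw [hchar]; exact hc1) hd0 hd1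
    · apply Pool.Agent.Y587.SG.lq _ _ d hab hd0 p
      right
      have := sq ((d : ℤ_[p]) * ((((-2 * a : ℤ) : ℤ_[p])) ^ 2 -
          4 * ((a ^ 2 - 4 * b : ℤ) : ℤ_[p]))) (by
        have e : PadicInt.toZMod ((d : ℤ_[p]) * ((((-2 * a : ℤ) : ℤ_[p])) ^ 2 -
            4 * ((a ^ 2 - 4 * b : ℤ) : ℤ_[p]))) = (d : ZMod p) *
            ((((-2 * a : ℤ) : ZMod p)) ^ 2 - 4 * ((a ^ 2 - 4 * b : ℤ) : ZMod p)) := by
          rw [map_mul, map_sub, map_pow, map_mul, map_intCast, map_intCast, map_intCast, map_ofNat]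
        rw [e, map_mul, hd1, hchar, hc1]
        norm_num)
      push_cast at this
      push_cast
      exact this

end Pool.Agent.U739.GE
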